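import Pool.Agent.H654R5.PT.Stm

/-!
# FRB: the substitution `Y ↦ Y ^ (2 ^ j)` modulo `Y ^ N - 1`
-/

namespace Pool.Agent.H654R5.PT.FRB

open Pool.Agent.NPC Pool.Agent.H654R5.PT

theorem inv_mod {N : ℕ} (hN : N % 2 = 1) (j i : ℕ) (hi : i < N) :
    (i * ((N + 1) / 2) ^ j % N) * 2 ^ j % N = i := by
  have h2 : (N + 1) / 2 * 2 = N + 1 := by omega
  have h1 : (i * ((N + 1) / 2) ^ j % N) * 2 ^ j ≡ i [MOD N] := by
    calc (i * ((N + 1) / 2) ^ j % N) * 2 ^ j
        ≡ (i * ((N + 1) / 2) ^ j) * 2 ^ j [MOD N] := (Nat.mod_modEq _ _).mul_right _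
      _ = i * (N + 1) ^ j := by rw [mul_assoc, ← mul_pow, h2]
      _ ≡ i * 1 ^ j [MOD N] := by
          refine Nat.ModEq.mul_left _ (Nat.ModEq.pow _ ?_)
          have : N + 1 ≡ 0 + 1 [MOD N] := Nat.ModEq.add_right 1 (by simp [Nat.ModEq])
          simpa using this
      _ = i := by simp
  exact h1.trans (Nat.ModEq.refl i) |>.symm ▸ Nat.mod_eq_of_lt hi

theorem inv_mod' {N : ℕ} (hN : N % 2 = 1) (j k : ℕ) (hk : k < N) :
    (k * 2 ^ j % N) * ((N + 1) / 2) ^ j % N = k := by
  have h2 : 2 * ((N + 1) / 2) = N + 1 := by omega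
  have h1 : (k * 2 ^ j % N) * ((N + 1) / 2) ^ j ≡ k [MOD N] := by
    calc (k * 2 ^ j % N) * ((N + 1) / 2) ^ j
        ≡ (k * 2 ^ j) * ((N + 1) / 2) ^ j [MOD N] := (Nat.mod_modEq _ _).mul_right _
      _ = k * (N + 1) ^ j := by rw [mul_assoc, ← mul_pow, h2]
      _ ≡ k * 1 ^ j [MOD N] := by
          refine Nat.ModEq.mul_left _ (Nat.ModEq.pow _ ?_)
          have : N + 1 ≡ 0 + 1 [MOD N] := Nat.ModEq.add_right 1 (by simp [Nat.ModEq])
          simpa using this
      _ = k := by simp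
  exact h1.trans (Nat.ModEq.refl k) |>.symm ▸ Nat.mod_eq_of_lt hk

theorem dvd_red (N m : ℕ) :
    (Polynomial.X ^ N - 1 : Polynomial (ZMod 2)) ∣ Polynomial.X ^ (m % N) - Polynomial.X ^ m := by
  have h1 : (Polynomial.X ^ m : Polynomial (ZMod 2)) =
      Polynomial.X ^ (m % N) * (Polynomial.X ^ N) ^ (m / N) := by
    rw [← pow_mul, ← pow_add, Nat.mod_add_div]
  have h2 : (Polynomial.X ^ N - 1 : Polynomial (ZMod 2)) ∣ (Polynomial.X ^ N) ^ (m / N) - 1 := by
    have := sub_dvd_pow_sub_pow (Polynomial.X ^ N : Polynomial (ZMod 2)) 1 (m / N)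
    simpa using this
  have h3 : (Polynomial.X ^ (m % N) - Polynomial.X ^ m : Polynomial (ZMod 2)) =
      ((Polynomial.X ^ N) ^ (m / N) - 1) * (- Polynomial.X ^ (m % N)) := by
    rw [h1]; ring
  rw [h3]
  exact Dvd.dvd.mul_right h2 _

theorem toP_eq_sum (x : List Bool) {N : ℕ} (hx : x.length ≤ N) :
    toP x = ∑ i ∈ Finset.range N,
      if x.getD i false then (Polynomial.X ^ i : Polynomial (ZMod 2)) else 0 := by
  unfold toP
  refine Finset.sum_subset (Finset.range_subset_range.mpr hx) ?_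
  intro i _ hi
  rw [Finset.mem_range, not_lt] at hi
  rw [List.getD_eq_default _ _ hi]
  simp

theorem FRB_proof : S_FRB := by
  intro N j x hN hx
  have hlen : (frob N j x).length = N := by simp [frob]
  refine ⟨hlen, ?_⟩
  have h1 : toP (frob N j x) = ∑ i ∈ Finset.range N,
      if x.getD (i * ((N + 1) / 2) ^ j % N) false then
        (Polynomial.X ^ i : Polynomial (ZMod 2)) else 0 := by
    rw [toP_eq_sum _ hlen.le]
    refine Finset.sum_congr rfl fun i hi => ?_
    have hi' : i < N := Finset.mem_range.mp hi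
    have h2 : (frob N j x).getD i false = x.getD (i * ((N + 1) / 2) ^ j % N) false := by
      unfold frob
      rw [List.getD_eq_getElem _ _ (by simpa using hi')]
      simp
    rw [h2]
  have hpos : 0 < N := by omega
  have h3 : toP (frob N j x) = ∑ k ∈ Finset.range N,
      if x.getD k false then
        (Polynomial.X ^ (k * 2 ^ j % N) : Polynomial (ZMod 2)) else 0 := by
    rw [h1]
    refine Finset.sum_bij' (fun i _ => i * ((N + 1) / 2) ^ j % N) (fun k _ => k * 2 ^ j % N)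
      ?_ ?_ ?_ ?_ ?_
    · intro i _; exact Finset.mem_range.mpr (Nat.mod_lt _ hpos)
    · intro i _; exact Finset.mem_range.mpr (Nat.mod_lt _ hpos)
    · intro i hi; exact inv_mod hN j i (Finset.mem_range.mp hi)
    · intro k hk; exact inv_mod' hN j k (Finset.mem_range.mp hk)
    · intro i hi
      rw [inv_mod hN j i (Finset.mem_range.mp hi)]
  have h4 : toP x ^ 2 ^ j = ∑ k ∈ Finset.range N,
      if x.getD k false then
        (Polynomial.X ^ (k * 2 ^ j) : Polynomial (ZMod 2)) else 0 := by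
    rw [toP_eq_sum x hx]
    haveI : CharP (Polynomial (ZMod 2)) 2 := inferInstance
    haveI : Fact (Nat.Prime 2) := ⟨Nat.prime_two⟩
    rw [sum_pow_char_pow 2 j]
    refine Finset.sum_congr rfl fun k _ => ?_
    split_ifs
    · rw [← pow_mul]
    · rw [zero_pow (by positivity)]
  rw [h3, h4, ← Finset.sum_sub_distrib]
  refine Finset.dvd_sum fun k _ => ?_
  split_ifs
  · exact dvd_red N _
  · simp

end Pool.Agent.H654R5.PT.FRB
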